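import Pool.Agent.W306.SP.Defs

/-!
# Supersaturation for unions of cells of the flat torus
-/

set_option autoImplicit false

namespace Pool.Agent.W306.SP

open MeasureTheory Set

/-- the error constant -/
noncomputable def kap (m : ℕ) : ℝ := 2 * (m + 1) * 2 ^ m * m.factorial / (m : ℝ) ^ m

lemma I_zero (m : ℕ) : 1 / ((m : ℝ) + 1) ≤ I m 0 := by
  unfold I
  simp only [zero_mul, Real.cos_zero, one_mul]
  have hint : ∀ a b : ℝ, IntervalIntegrable (fun s : ℝ => (1 - s ^ 2) ^ m) volume a b := fun a b =>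
    (by fun_prop : Continuous fun s : ℝ => (1 - s ^ 2) ^ m).intervalIntegrable a b
  have h1 : ∫ s in (-1 : ℝ)..1, (1 - s ^ 2) ^ m = (∫ s in (-1 : ℝ)..0, (1 - s ^ 2) ^ m) + ∫ s in (0 : ℝ)..1, (1 - s ^ 2) ^ m :=
    (intervalIntegral.integral_add_adjacent_intervals (hint _ _) (hint _ _)).symm
  have h2 : 0 ≤ ∫ s in (-1 : ℝ)..0, (1 - s ^ 2) ^ m := by
    apply intervalIntegral.integral_nonneg (by norm_num)
    intro s hs
    apply pow_nonneg
    nlinarith [hs.1, hs.2]
  have h3 : ∫ s in (0 : ℝ)..1, (1 - s) ^ m ≤ ∫ s in (0 : ℝ)..1, (1 - s ^ 2) ^ m := by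
    apply intervalIntegral.integral_mono_on (by norm_num)
    · exact (by fun_prop : Continuous fun s : ℝ => (1 - s) ^ m).intervalIntegrable _ _
    · exact hint _ _
    · intro s hs
      apply pow_le_pow_left₀
      · linarith [hs.2]
      · nlinarith [hs.1, hs.2]
  have h4 : ∫ s in (0 : ℝ)..1, (1 - s) ^ m = 1 / ((m : ℝ) + 1) := by
    rw [intervalIntegral.integral_comp_sub_left (fun s : ℝ => s ^ m) 1]
    simp
  rw [h1]
  linarith

lemma I_lower (hpos : S_POS) (hmag : S_MAG) {m : ℕ} (hm : 1 ≤ m) {t : ℝ} (ht : 0 ≤ t) :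
    -(kap m * I m 0) ≤ I m t := by
  have hmR : (0 : ℝ) < m := by exact_mod_cast hm
  have h0 := I_zero m
  have h00 : 0 < I m 0 := lt_of_lt_of_le (by positivity) h0
  have hk : 0 ≤ kap m := by unfold kap; positivity
  rcases le_or_gt t m with h | h
  · have := hpos m t ht h
    nlinarith
  · have ht0 : 0 < t := lt_trans hmR h
    have h1 := hmag m t ht0
    have h2 : 2 * 2 ^ m * (m.factorial : ℝ) / t ^ m ≤ 2 * 2 ^ m * m.factorial / (m : ℝ) ^ m := by
      apply div_le_div_of_nonneg_left (by positivity) (by positivity)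
      exact pow_le_pow_left₀ hmR.le h.le _
    have h3 : 2 * 2 ^ m * (m.factorial : ℝ) / (m : ℝ) ^ m ≤ kap m * I m 0 := by
      have e : kap m = (2 * 2 ^ m * (m.factorial : ℝ) / (m : ℝ) ^ m) * (m + 1) := by
        unfold kap; ring
      have h5 : (1 : ℝ) ≤ (m + 1) * I m 0 := by
        calc (1 : ℝ) = (m + 1) * (1 / (m + 1)) := by field_simp
          _ ≤ (m + 1) * I m 0 := mul_le_mul_of_nonneg_left h0 (by positivity)
      have h6 : (0 : ℝ) ≤ 2 * 2 ^ m * (m.factorial : ℝ) / (m : ℝ) ^ m := by positivity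
      calc 2 * 2 ^ m * (m.factorial : ℝ) / (m : ℝ) ^ m
          ≤ (2 * 2 ^ m * (m.factorial : ℝ) / (m : ℝ) ^ m) * ((m + 1) * I m 0) :=
            le_mul_of_one_le_right h6 h5
        _ = kap m * I m 0 := by rw [e]; ring
    have h4 := (abs_le.1 h1).1
    linarith

lemma nsq_nonneg {d : ℕ} (x : UnitAddTorus (Fin d)) : 0 ≤ nsq x := by
  unfold nsq
  positivity

lemma ker_nonneg {d : ℕ} {p r : ℝ} (x : UnitAddTorus (Fin d)) : 0 ≤ ker p r x := by
  unfold ker
  split_ifs with h
  · apply Real.rpow_nonneg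
    rcases eq_or_ne r 0 with rfl | hr
    · simp
    · rw [sub_nonneg, div_le_one (by positivity)]
      exact h.le
  · exact le_rfl

lemma ker_le_one {d : ℕ} {p r : ℝ} (hp : 0 ≤ p) (x : UnitAddTorus (Fin d)) : ker p r x ≤ 1 := by
  unfold ker
  split_ifs with h
  · apply Real.rpow_le_one
    · rcases eq_or_ne r 0 with rfl | hr
      · simp
      · rw [sub_nonneg, div_le_one (by positivity)]
        exact h.le
    · have := nsq_nonneg x
      have : 0 ≤ nsq x / r ^ 2 := by positivity
      linarith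
    · exact hp
  · exact zero_le_one

lemma ker_le_ind {d : ℕ} {p r : ℝ} (hp : 0 ≤ p) (x : UnitAddTorus (Fin d)) :
    ker p r x ≤ if nsq x < r ^ 2 then 1 else 0 := by
  have h := ker_le_one (r := r) hp x
  unfold ker at h ⊢
  split_ifs with h1
  · rw [if_pos h1] at h
    exact h
  · exact le_rfl

lemma measurable_nsq {d : ℕ} : Measurable (nsq : UnitAddTorus (Fin d) → ℝ) := by
  unfold nsq
  fun_prop

lemma measurable_ker {d : ℕ} {p r : ℝ} : Measurable (ker p r : UnitAddTorus (Fin d) → ℝ) := by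
  unfold ker
  apply Measurable.ite
  · exact measurableSet_lt measurable_nsq measurable_const
  · exact ((measurable_const.sub (measurable_nsq.div_const _)).pow_const p)
  · exact measurable_const

instance {d : ℕ} : IsProbabilityMeasure (μ d) := by
  unfold μ
  infer_instance

/-- kernel bound on the torus -/
theorem torus_bound (hpos : S_POS) (hmag : S_MAG) (hft1 : S_FT1) (hft2 : S_FT2) (hmass : S_MASS)
    (htor : S_TOR) {d m : ℕ} {p r : ℝ} (hd : 2 ≤ d) (hp0 : 0 ≤ p) (hp1 : p ≤ 1 / 2)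
    (hpm : 2 * p + ((d : ℝ) - 1) = 2 * m) (hr0 : 0 < r) (hr1 : r ≤ 1 / 2) :
    ∃ c0 : ℝ, vol d r / (2 * d) ≤ c0 ∧ c0 ≤ 1 ∧ ∀ A : Set (UnitAddTorus (Fin d)), MeasurableSet A →
      c0 * (μ d A).toReal ^ 2 - c0 * kap m * (μ d A).toReal ≤
      ∫ x in A, (∫ y in A, ker p r (x - y) ∂(μ d)) ∂(μ d) := by
  have hm : 1 ≤ m := by
    have : (2 : ℝ) ≤ d := by exact_mod_cast hd
    have h1 : (1 : ℝ) ≤ 2 * m := by linarith
    have h2 : 1 ≤ 2 * m := by exact_mod_cast h1
    omega
  obtain ⟨c, hc, hcf⟩ := hft2 d m p (by omega) hp0 hpm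
  have hcoef : ∀ k : Fin d → ℤ, ∫ x, UnitAddTorus.mFourier (-k) x * ((ker p r x : ℝ) : ℂ) ∂(μ d) =
      ((c * r ^ d * I m (r * √(∑ i, (2 * Real.pi * k i) ^ 2)) : ℝ) : ℂ) := by
    intro k
    rw [hft1 d p r hp0 hr0 hr1 k, ← hcf r hr0]
    congr 2
    funext x
    congr 2
    rw [Finset.mul_sum]
    refine Finset.sum_congr rfl fun i _ => ?_
    ring
  have hzero : ∫ x, ker p r x ∂(μ d) = c * r ^ d * I m 0 := by
    have h := hcoef 0
    simp only [neg_zero, UnitAddTorus.mFourier_zero, ContinuousMap.one_apply, one_mul, Pi.zero_apply,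
      Int.cast_zero, mul_zero] at h
    have e : √(∑ _i : Fin d, (0 : ℝ) ^ 2) = 0 := by simp
    rw [e, mul_zero, integral_complex_ofReal] at h
    exact_mod_cast h
  have hmassR : ∫ x : Fin d → ℝ, kerR p r x = c * r ^ d * I m 0 := by
    have h := hcf r hr0 0
    simp only [Pi.zero_apply, zero_mul, Finset.sum_const_zero, Real.cos_zero, mul_one] at h
    rw [h]
    congr 1
    simp
  set c0 := c * r ^ d * I m 0 with hc0
  have hI0 : 0 < I m 0 := lt_of_lt_of_le (by positivity) (I_zero m)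
  have hc0pos : 0 < c0 := by positivity
  have hk0 : 0 ≤ kap m := by unfold kap; positivity
  refine ⟨c0, ?_, ?_, ?_⟩
  · rw [← hmassR]
    exact hmass d p r hd hp0 hp1 hr0
  · rw [← hzero]
    calc ∫ x, ker p r x ∂(μ d) ≤ ∫ _x, (1 : ℝ) ∂(μ d) := by
          apply integral_mono_of_nonneg (Filter.Eventually.of_forall ker_nonneg) (integrable_const _)
            (Filter.Eventually.of_forall (ker_le_one hp0))
      _ = 1 := by simp
  · intro A hA
    have h := htor d (ker p r) measurable_ker ⟨1, fun x => by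
      rw [abs_of_nonneg (ker_nonneg x)]; exact ker_le_one hp0 x⟩ (c0 * kap m) (by positivity)
      (fun k => ⟨_, by
        have h1 := I_lower hpos hmag hm (t := r * √(∑ i, (2 * Real.pi * k i) ^ 2)) (by positivity)
        have h2 : 0 < c * r ^ d := by positivity
        have h3 := mul_le_mul_of_nonneg_left h1 h2.le
        refine le_trans (le_of_eq ?_) h3
        rw [hc0]
        ring, hcoef k⟩) A hA
    rw [hzero] at h
    exact h

/-! ## cells -/

/-- representative in `(0,1]` -/
noncomputable def rep (u : UnitAddCircle) : ℝ := (AddCircle.equivIoc (1 : ℝ) 0 u).1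

lemma rep_mem (u : UnitAddCircle) : 0 < rep u ∧ rep u ≤ 1 := by
  have h := (AddCircle.equivIoc (1 : ℝ) 0 u).2
  simp only [zero_add] at h
  exact ⟨h.1, h.2⟩

lemma coe_rep (u : UnitAddCircle) : ((rep u : ℝ) : UnitAddCircle) = u := by
  unfold rep
  exact AddCircle.coe_equivIoc

lemma rep_coe {x : ℝ} (h0 : 0 < x) (h1 : x ≤ 1) : rep (x : UnitAddCircle) = x := by
  unfold rep
  have := AddCircle.equivIoc_coe_of_mem (p := (1 : ℝ)) (a := 0) (y := x) ⟨h0, by simpa using h1⟩
  exact this

lemma measurable_rep : Measurable rep :=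
  measurable_subtype_coe.comp (AddCircle.measurableEquivIoc (1 : ℝ) 0).measurable

/-- index of the interval `(j/K,(j+1)/K]` -/
noncomputable def ci (K : ℕ) (u : UnitAddCircle) : ℕ := ⌈(K : ℝ) * rep u⌉₊ - 1

lemma ci_spec {K : ℕ} (hK : 1 ≤ K) (u : UnitAddCircle) :
    ci K u < K ∧ (ci K u : ℝ) / K < rep u ∧ rep u ≤ ((ci K u : ℝ) + 1) / K := by
  have hKR : (0 : ℝ) < K := by exact_mod_cast hK
  obtain ⟨h0, h1⟩ := rep_mem u
  have hpos : 0 < ⌈(K : ℝ) * rep u⌉₊ := Nat.ceil_pos.2 (by positivity)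
  have hle : ⌈(K : ℝ) * rep u⌉₊ ≤ K := by
    rw [Nat.ceil_le]
    nlinarith
  have e : ((ci K u : ℕ) : ℝ) = (⌈(K : ℝ) * rep u⌉₊ : ℝ) - 1 := by
    unfold ci
    rw [Nat.cast_sub hpos]
    simp
  refine ⟨by unfold ci; omega, ?_, ?_⟩
  · rw [div_lt_iff₀ hKR, e]
    have := Nat.ceil_lt_add_one (show 0 ≤ (K : ℝ) * rep u by positivity)
    linarith
  · rw [le_div_iff₀ hKR, e]
    have := Nat.le_ceil ((K : ℝ) * rep u)
    linarith

lemma measurable_ci (K : ℕ) : Measurable (ci K) := by
  unfold ci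
  exact (measurable_from_top (f := fun j : ℕ => j - 1)).comp
    (Nat.measurable_ceil.comp (measurable_const.mul measurable_rep))

lemma haar_ci {K j : ℕ} (hK : 1 ≤ K) (hj : j < K) :
    AddCircle.haarAddCircle {u : UnitAddCircle | ci K u = j} = ENNReal.ofReal (1 / K) := by
  have hKR : (0 : ℝ) < K := by exact_mod_cast hK
  have hv : (volume : Measure UnitAddCircle) = AddCircle.haarAddCircle := by
    rw [AddCircle.volume_eq_smul_haarAddCircle]
    simp
  have hms : MeasurableSet {u : UnitAddCircle | ci K u = j} := (measurable_ci K) (measurableSet_singleton j)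
  have hpre := (AddCircle.measurePreserving_mk (1 : ℝ) 0).measure_preimage hms.nullMeasurableSet
  rw [Measure.restrict_apply (AddCircle.measurable_mk' hms)] at hpre
  have hset : (fun x : ℝ => (x : UnitAddCircle)) ⁻¹' {u : UnitAddCircle | ci K u = j} ∩ Ioc 0 (0 + 1) =
      Ioc ((j : ℝ) / K) (((j : ℝ) + 1) / K) := by
    ext x
    simp only [mem_inter_iff, mem_preimage, mem_ofPred_eq, mem_Ioc, zero_add]
    constructor
    · rintro ⟨h1, h2, h3⟩
      have h4 := ci_spec hK (x : UnitAddCircle)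
      rw [h1, rep_coe h2 h3] at h4
      exact ⟨h4.2.1, h4.2.2⟩
    · rintro ⟨h1, h2⟩
      have h0 : 0 < x := lt_of_le_of_lt (by positivity) h1
      have h3 : x ≤ 1 := by
        refine h2.trans ?_
        rw [div_le_one hKR]
        have : j + 1 ≤ K := hj
        exact_mod_cast this
      refine ⟨?_, h0, h3⟩
      unfold ci
      rw [rep_coe h0 h3]
      have h5 : ⌈(K : ℝ) * x⌉₊ = j + 1 := by
        rw [Nat.ceil_eq_iff (by omega)]
        rw [div_lt_iff₀ hKR] at h1
        rw [le_div_iff₀ hKR] at h2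
        constructor
        · rw [Nat.add_sub_cancel]
          linarith
        · push_cast
          linarith
      omega
  rw [← hv, ← hpre]
  have hset' : ((↑) : ℝ → UnitAddCircle) ⁻¹' {u : UnitAddCircle | ci K u = j} ∩ Ioc 0 (0 + 1) =
      Ioc ((j : ℝ) / K) (((j : ℝ) + 1) / K) := hset
  rw [hset', Real.volume_Ioc]
  congr 1
  field_simp
  ring

/-- the cell index of a point of the torus -/
noncomputable def cidx {d K : ℕ} (hK : 1 ≤ K) (x : UnitAddTorus (Fin d)) : Fin d → Fin K :=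
  fun k => ⟨ci K (x k), (ci_spec hK (x k)).1⟩

lemma measurable_cidx {d K : ℕ} (hK : 1 ≤ K) : Measurable (cidx (d := d) hK) := by
  apply measurable_pi_lambda
  intro k
  have h1 : Measurable (fun x : UnitAddTorus (Fin d) => ci K (x k)) :=
    (measurable_ci K).comp (measurable_pi_apply k)
  have h2 : ∀ j : Fin K, MeasurableSet ((fun x : UnitAddTorus (Fin d) => cidx hK x k) ⁻¹' {j}) := by
    intro j
    have : (fun x : UnitAddTorus (Fin d) => cidx hK x k) ⁻¹' {j} =
        (fun x : UnitAddTorus (Fin d) => ci K (x k)) ⁻¹' {(j : ℕ)} := by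
      ext x
      simp only [mem_preimage, mem_singleton_iff, cidx, Fin.ext_iff]
    rw [this]
    exact h1 (measurableSet_singleton _)
  exact measurable_to_countable' h2

lemma μ_cell {d K : ℕ} (hK : 1 ≤ K) (c : Fin d → Fin K) :
    (μ d (cidx hK ⁻¹' {c})).toReal = 1 / (K : ℝ) ^ d := by
  have h1 : cidx hK ⁻¹' {c} = Set.pi univ (fun k => {u : UnitAddCircle | ci K u = c k}) := by
    ext x
    simp only [mem_preimage, mem_singleton_iff, mem_univ_pi, mem_ofPred_eq, funext_iff, cidx, Fin.ext_iff]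
  rw [h1, μ, Measure.pi_pi]
  have h2 : ∀ k : Fin d, AddCircle.haarAddCircle {u : UnitAddCircle | ci K u = c k} = ENNReal.ofReal (1 / K) :=
    fun k => haar_ci hK (c k).2
  rw [Finset.prod_congr rfl fun k _ => h2 k, Finset.prod_const, Finset.card_univ, Fintype.card_fin,
    ENNReal.toReal_pow, ENNReal.toReal_ofReal (by positivity), one_div, one_div, inv_pow]

/-- integral of a function of the cell -/
lemma int_cell {d K : ℕ} (hK : 1 ≤ K) (S : Finset (Fin d → Fin K)) (g : (Fin d → Fin K) → ℝ) :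
    ∫ x in cidx hK ⁻¹' (S : Set (Fin d → Fin K)), g (cidx hK x) ∂(μ d) = (∑ c ∈ S, g c) / (K : ℝ) ^ d := by
  have hm : MeasurableSet (cidx (d := d) hK ⁻¹' (S : Set (Fin d → Fin K))) :=
    measurable_cidx hK S.measurableSet
  rw [← integral_indicator hm]
  have h1 : (cidx (d := d) hK ⁻¹' (S : Set (Fin d → Fin K))).indicator (fun x => g (cidx hK x)) =
      fun x => ∑ c ∈ S, (cidx (d := d) hK ⁻¹' {c}).indicator (fun _ => g c) x := by
    funext x
    by_cases hx : cidx hK x ∈ S
    · rw [indicator_of_mem (show x ∈ cidx hK ⁻¹' (S : Set (Fin d → Fin K)) from hx)]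
      rw [Finset.sum_eq_single (cidx hK x)]
      · rw [indicator_of_mem (show x ∈ cidx hK ⁻¹' {cidx hK x} from rfl)]
      · intro c _ hc
        exact indicator_of_notMem (fun h => hc (by
          have : cidx hK x = c := h
          exact this.symm)) _
      · intro h
        exact absurd hx h
    · rw [indicator_of_notMem (show x ∉ cidx hK ⁻¹' (S : Set (Fin d → Fin K)) from hx)]
      symm
      apply Finset.sum_eq_zero
      intro c hc
      exact indicator_of_notMem (fun h => hx (by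
          have : cidx hK x = c := h
          rw [this]; exact hc)) _
  rw [h1, integral_finsetSum]
  · rw [Finset.sum_div]
    refine Finset.sum_congr rfl fun c _ => ?_
    rw [integral_indicator_const _ (measurable_cidx hK (measurableSet_singleton c)), smul_eq_mul]
    have := μ_cell hK c
    rw [measureReal_def, this]
    ring
  · intro c _
    exact (integrable_const _).indicator (measurable_cidx hK (measurableSet_singleton c))

lemma tn_sub (a b : ℝ) : |a - round a| ≤ |a - b - round (a - b)| + |b| := by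
  have h1 : |a - round a| ≤ |a - round (a - b)| := round_le a _
  calc |a - round a| ≤ |a - round (a - b)| := h1
    _ = |(a - b - round (a - b)) + b| := by congr 1; ring
    _ ≤ _ := abs_add_le _ _

/-- nearby points lie in adjacent cells -/
lemma adj_of_near {d K : ℕ} (hK : 1 ≤ K) {r : ℝ} (hr : 4 * √d / K < r) (x y : UnitAddTorus (Fin d))
    (h : nsq (x - y) < (r - 4 * √d / K) ^ 2) : adj r (cidx hK x) (cidx hK y) := by
  have hKR : (0 : ℝ) < K := by exact_mod_cast hK
  unfold adj tsq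
  have hnorm : ∀ k, ‖(x - y) k‖ = |rep (x k) - rep (y k) - round (rep (x k) - rep (y k))| := by
    intro k
    rw [Pi.sub_apply, ← UnitAddCircle.norm_eq]
    congr 1
    rw [AddCircle.coe_sub, coe_rep, coe_rep]
  set a : Fin d → ℝ := fun k => |((cidx hK x k : ℕ) : ℝ) / K - ((cidx hK y k : ℕ) : ℝ) / K -
    round (((cidx hK x k : ℕ) : ℝ) / K - ((cidx hK y k : ℕ) : ℝ) / K)| with ha
  set b : Fin d → ℝ := fun k => ‖(x - y) k‖ with hb
  have hab : ∀ k, a k ≤ b k + 1 / K := by
    intro k
    have h1 := (ci_spec hK (x k)).2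
    have h2 := (ci_spec hK (y k)).2
    have hx1 : ((cidx hK x k : ℕ) : ℝ) = ci K (x k) := rfl
    have hy1 : ((cidx hK y k : ℕ) : ℝ) = ci K (y k) := rfl
    have h3 := tn_sub (((cidx hK x k : ℕ) : ℝ) / K - ((cidx hK y k : ℕ) : ℝ) / K)
      ((((cidx hK x k : ℕ) : ℝ) / K - rep (x k)) - (((cidx hK y k : ℕ) : ℝ) / K - rep (y k)))
    have e : ((cidx hK x k : ℕ) : ℝ) / K - ((cidx hK y k : ℕ) : ℝ) / K -
        ((((cidx hK x k : ℕ) : ℝ) / K - rep (x k)) - (((cidx hK y k : ℕ) : ℝ) / K - rep (y k))) =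
        rep (x k) - rep (y k) := by ring
    rw [e, ← hnorm] at h3
    refine h3.trans ?_
    have h4 : |(((cidx hK x k : ℕ) : ℝ) / K - rep (x k)) - (((cidx hK y k : ℕ) : ℝ) / K - rep (y k))| ≤ 1 / K := by
      rw [hx1, hy1, abs_le]
      have e1 : ((ci K (x k) : ℝ) + 1) / K = (ci K (x k) : ℝ) / K + 1 / K := by ring
      have e2 : ((ci K (y k) : ℝ) + 1) / K = (ci K (y k) : ℝ) / K + 1 / K := by ring
      rw [e1] at h1
      rw [e2] at h2
      constructor <;> linarith [h1.1, h1.2, h2.1, h2.2]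
    linarith
  have hS : √(∑ k, a k ^ 2) ≤ √(∑ k, b k ^ 2) + √d / K := by
    have hd : √(∑ _k : Fin d, (1 / (K : ℝ)) ^ 2) = √d / K := by
      rw [Finset.sum_const, Finset.card_univ, Fintype.card_fin, nsmul_eq_mul,
        Real.sqrt_mul (Nat.cast_nonneg _), Real.sqrt_sq (by positivity)]
      ring
    rw [← hd, Real.sqrt_le_left (by positivity), add_sq, Real.sq_sqrt (by positivity), Real.sq_sqrt (by positivity)]
    have hcs := Real.sum_mul_le_sqrt_mul_sqrt Finset.univ b (fun _ => 1 / (K : ℝ))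
    calc ∑ k, a k ^ 2 ≤ ∑ k, (b k + 1 / K) ^ 2 := by
          apply Finset.sum_le_sum
          intro k _
          have h5 : 0 ≤ a k := abs_nonneg _
          exact pow_le_pow_left₀ h5 (hab k) 2
      _ = ∑ k, b k ^ 2 + 2 * ∑ k, b k * (1 / K) + ∑ _k : Fin d, (1 / (K : ℝ)) ^ 2 := by
          rw [Finset.mul_sum, ← Finset.sum_add_distrib, ← Finset.sum_add_distrib]
          refine Finset.sum_congr rfl fun k _ => ?_
          ring
      _ ≤ _ := by
          linarith
  have hlt : √(∑ k, b k ^ 2) < r - 4 * √d / K := by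
    rw [Real.sqrt_lt' (by linarith)]
    exact h
  have h6 : 0 ≤ √d / K := by positivity
  have h7 : 4 * √d / K = 4 * (√d / K) := by ring
  have h8 : 2 * √d / K = 2 * (√d / K) := by ring
  rw [h7] at hlt
  rw [h8]
  calc √(∑ k, a k ^ 2) ≤ √(∑ k, b k ^ 2) + √d / K := hS
    _ < r - 2 * (√d / K) := by linarith

open scoped Classical in
/-- **supersaturation for cells** -/
theorem cell_bound (hpos : S_POS) (hmag : S_MAG) (hft1 : S_FT1) (hft2 : S_FT2) (hmass : S_MASS)
    (htor : S_TOR) {d m K : ℕ} {p r : ℝ} (hd : 2 ≤ d) (hp0 : 0 ≤ p) (hp1 : p ≤ 1 / 2)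
    (hpm : 2 * p + ((d : ℝ) - 1) = 2 * m) (hK : 1 ≤ K) (hr0 : 4 * √d / K < r) (hr1 : r ≤ 1 / 2) :
    ∃ c0 : ℝ, vol d (r - 4 * √d / K) / (2 * d) ≤ c0 ∧ c0 ≤ 1 ∧ ∀ S : Finset (Fin d → Fin K),
      c0 * (S.card : ℝ) ^ 2 - c0 * kap m * S.card * (K : ℝ) ^ d ≤
        ∑ c ∈ S, ((S.filter (fun c' => adj r c c')).card : ℝ) := by
  have hKR : (0 : ℝ) < K := by exact_mod_cast hK
  have h6 : 0 ≤ 4 * √d / K := by positivity
  obtain ⟨c0, h1, h2, h3⟩ := torus_bound hpos hmag hft1 hft2 hmass htor hd hp0 hp1 hpm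
    (r := r - 4 * √d / K) (by linarith) (by linarith)
  refine ⟨c0, h1, h2, fun S => ?_⟩
  set A := cidx (d := d) hK ⁻¹' (S : Set (Fin d → Fin K)) with hA
  have hAm : MeasurableSet A := measurable_cidx hK S.measurableSet
  have hAμ : (μ d A).toReal = (S.card : ℝ) / (K : ℝ) ^ d := by
    have := int_cell hK S (fun _ => (1 : ℝ))
    rw [← hA] at this
    simp only [Finset.sum_const, nsmul_eq_mul, mul_one] at this
    rw [← this, setIntegral_const, measureReal_def]
    simp
  have h4 := h3 A hAm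
  rw [hAμ] at h4
  set g : (Fin d → Fin K) → ℝ := fun c => ((S.filter (fun c' => adj r c c')).card : ℝ) with hg
  have hinner : ∀ x ∈ A, ∫ y in A, ker p (r - 4 * √d / K) (x - y) ∂(μ d) ≤ g (cidx hK x) / (K : ℝ) ^ d := by
    intro x _
    have e1 := int_cell hK S (fun c' => if adj r (cidx hK x) c' then (1 : ℝ) else 0)
    rw [← hA] at e1
    have e2 : (∑ c' ∈ S, if adj r (cidx hK x) c' then (1 : ℝ) else 0) = g (cidx hK x) := by
      rw [hg]
      simp only [Finset.sum_boole]
    rw [e2] at e1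
    rw [← e1]
    apply integral_mono_of_nonneg (Filter.Eventually.of_forall fun y => ker_nonneg _)
    · have hbdd : ∀ y, ‖(if adj r (cidx hK x) (cidx hK y) then (1 : ℝ) else 0)‖ ≤ 1 := by
        intro y
        split_ifs <;> simp
      refine Integrable.of_bound (C := 1) ?_ (Filter.Eventually.of_forall hbdd)
      exact ((measurable_of_finite (fun c' => if adj r (cidx hK x) c' then (1 : ℝ) else 0)).comp
        (measurable_cidx hK)).aestronglyMeasurable
    · refine Filter.Eventually.of_forall fun y => ?_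
      refine (ker_le_ind hp0 _).trans ?_
      show (if nsq (x - y) < (r - 4 * √d / K) ^ 2 then (1 : ℝ) else 0) ≤
        if adj r (cidx hK x) (cidx hK y) then (1 : ℝ) else 0
      split_ifs with g1 g2 g2
      · exact le_rfl
      · exact absurd (adj_of_near hK hr0 x y g1) g2
      · exact zero_le_one
      · exact le_rfl
  have houter : ∫ x in A, (∫ y in A, ker p (r - 4 * √d / K) (x - y) ∂(μ d)) ∂(μ d) ≤
      (∑ c ∈ S, g c / (K : ℝ) ^ d) / (K : ℝ) ^ d := by
    rw [← int_cell hK S (fun c => g c / (K : ℝ) ^ d), ← hA]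
    apply integral_mono_of_nonneg
    · exact Filter.Eventually.of_forall fun x => integral_nonneg fun y => ker_nonneg _
    · have hbdd : ∀ x, ‖g (cidx hK x) / (K : ℝ) ^ d‖ ≤ S.card / (K : ℝ) ^ d := by
        intro x
        rw [Real.norm_of_nonneg (by rw [hg]; positivity)]
        apply div_le_div_of_nonneg_right _ (by positivity)
        show ((S.filter (fun c' => adj r (cidx hK x) c')).card : ℝ) ≤ S.card
        exact Nat.cast_le.2 (Finset.card_filter_le _ _)
      refine Integrable.of_bound (C := S.card / (K : ℝ) ^ d) ?_ (Filter.Eventually.of_forall hbdd)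
      exact ((measurable_of_finite (fun c => g c / (K : ℝ) ^ d)).comp
        (measurable_cidx hK)).aestronglyMeasurable
    · rw [Filter.EventuallyLE, ae_restrict_iff' hAm]
      exact Filter.Eventually.of_forall hinner
  have h5 := h4.trans houter
  have hKd : (0 : ℝ) < (K : ℝ) ^ d := by positivity
  rw [← Finset.sum_div, div_div, le_div_iff₀ (by positivity)] at h5
  refine le_trans (le_of_eq ?_) h5
  field_simp

end Pool.Agent.W306.SP
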