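import Mathlib

/-!
# Project SP: random points in the flat torus and sphere packings

Statements of the parts. Everything is over Mathlib.
-/

set_option autoImplicit false

namespace Pool.Agent.W306.SP

open MeasureTheory

/-- squared Euclidean distance in the flat torus `ℝ^d / ℤ^d` of two points of `ℝ^d` -/
noncomputable def tsq {d : ℕ} (x y : Fin d → ℝ) : ℝ := ∑ k, |x k - y k - round (x k - y k)| ^ 2

/-- configurations of `M` points of the unit cube with pairwise toroidal distance at least `r` -/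
def Sep (d M : ℕ) (r : ℝ) : Set (Fin M → Fin d → ℝ) :=
  {x | (∀ i k, 0 ≤ x i k ∧ x i k < 1) ∧ ∀ i j, i ≠ j → r ^ 2 ≤ tsq (x i) (x j)}

/-- the probability that `M` random points of the torus are pairwise at distance at least `r` -/
noncomputable def P (d M : ℕ) (r : ℝ) : ℝ := (volume (Sep d M r)).toReal

/-- volume of the Euclidean ball of radius `r` -/
noncomputable def vol (d : ℕ) (r : ℝ) : ℝ :=
  (volume (Metric.ball (0 : EuclideanSpace ℝ (Fin d)) r)).toReal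

/-- the integral `I_m(t) = ∫_{-1}^{1} cos(t s) (1 - s^2)^m ds` -/
noncomputable def I (m : ℕ) (t : ℝ) : ℝ := ∫ s in (-1 : ℝ)..1, Real.cos (t * s) * (1 - s ^ 2) ^ m

/-- probability measure on the torus (the measure used in Mathlib's `UnitAddTorus` file) -/
noncomputable def μ (d : ℕ) : Measure (UnitAddTorus (Fin d)) := Measure.pi fun _ => AddCircle.haarAddCircle

/-- squared norm in the torus -/
noncomputable def nsq {d : ℕ} (x : UnitAddTorus (Fin d)) : ℝ := ∑ k, ‖x k‖ ^ 2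

/-- the kernel `(1 - |x|^2/r^2)^p` in the ball of radius `r`, zero outside -/
noncomputable def ker {d : ℕ} (p r : ℝ) (x : UnitAddTorus (Fin d)) : ℝ :=
  if nsq x < r ^ 2 then (1 - nsq x / r ^ 2) ^ p else 0

/-- the same kernel on `ℝ^d` -/
noncomputable def kerR {d : ℕ} (p r : ℝ) (x : Fin d → ℝ) : ℝ :=
  if ∑ k, x k ^ 2 < r ^ 2 then (1 - (∑ k, x k ^ 2) / r ^ 2) ^ p else 0

/-- cells of the grid of mesh `1/K`: adjacency -/
def adj {d K : ℕ} (r : ℝ) (c c' : Fin d → Fin K) : Prop :=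
  √(tsq (fun k => (c k : ℝ) / K) (fun k => (c' k : ℝ) / K)) < r - 2 * √d / K

open scoped Classical in
/-- sets of `M` pairwise non adjacent cells -/
noncomputable def indep (d K M : ℕ) (r : ℝ) : Finset (Finset (Fin d → Fin K)) :=
  (Finset.powersetCard M Finset.univ).filter (fun J => ∀ c ∈ J, ∀ c' ∈ J, c ≠ c' → ¬ adj r c c')

/-! ## parts -/

/-- POS: `I_m(t) ≥ 0` for `0 ≤ t ≤ m`. -/
def S_POS : Prop := ∀ (m : ℕ) (t : ℝ), 0 ≤ t → t ≤ m → 0 ≤ I m t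

/-- MAG: `|I_m(t)| ≤ 2 · 2^m m! / t^m`. -/
def S_MAG : Prop := ∀ (m : ℕ) (t : ℝ), 0 < t → |I m t| ≤ 2 * 2 ^ m * m.factorial / t ^ m

/-- FT1: Fourier coefficients of the kernel of the torus are integrals over `ℝ^d`. -/
def S_FT1 : Prop := ∀ (d : ℕ) (p r : ℝ), 0 ≤ p → 0 < r → r ≤ 1 / 2 → ∀ k : Fin d → ℤ,
  ∫ x, UnitAddTorus.mFourier (-k) x * ((ker p r x : ℝ) : ℂ) ∂(μ d) =
    ((∫ x : Fin d → ℝ, kerR p r x * Real.cos (2 * Real.pi * ∑ i, (k i : ℝ) * x i) : ℝ) : ℂ)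

/-- FT2: the Fourier transform of the kernel on `ℝ^d`. -/
def S_FT2 : Prop := ∀ (d m : ℕ) (p : ℝ), 1 ≤ d → 0 ≤ p → 2 * p + ((d : ℝ) - 1) = 2 * m →
  ∃ c : ℝ, 0 < c ∧ ∀ (r : ℝ), 0 < r → ∀ ξ : Fin d → ℝ,
    ∫ x : Fin d → ℝ, kerR p r x * Real.cos (∑ i, ξ i * x i) = c * r ^ d * I m (r * √(∑ i, ξ i ^ 2))

/-- MASS: the integral of the kernel is not much smaller than the volume of the ball. -/
def S_MASS : Prop := ∀ (d : ℕ) (p r : ℝ), 2 ≤ d → 0 ≤ p → p ≤ 1 / 2 → 0 < r →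
  vol d r / (2 * d) ≤ ∫ x : Fin d → ℝ, kerR p r x

/-- TOR: a kernel whose Fourier coefficients are real and at least `-κ`. -/
def S_TOR : Prop := ∀ (d : ℕ) (F : UnitAddTorus (Fin d) → ℝ), Measurable F → (∃ B, ∀ x, |F x| ≤ B) →
  ∀ κ : ℝ, 0 ≤ κ →
  (∀ k : Fin d → ℤ, ∃ c : ℝ, -κ ≤ c ∧
    ∫ x, UnitAddTorus.mFourier (-k) x * ((F x : ℝ) : ℂ) ∂(μ d) = (c : ℂ)) →
  ∀ A : Set (UnitAddTorus (Fin d)), MeasurableSet A →
    (∫ x, F x ∂(μ d)) * (μ d A).toReal ^ 2 - κ * (μ d A).toReal ≤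
      ∫ x in A, (∫ y in A, F (x - y) ∂(μ d)) ∂(μ d)

/-- DISC: discretisation of the probability. -/
def S_DISC : Prop := ∀ (d M K : ℕ) (r : ℝ), 1 ≤ d → 1 ≤ K → 0 < r → 4 * √d / K < r →
  P d M r ≤ M.factorial * (indep d K M r).card / ((K : ℝ) ^ d) ^ M

/-- LOW: adding a point. -/
def S_LOW : Prop := ∀ (d M : ℕ) (r : ℝ), 1 ≤ d → 0 < r → r ≤ 1 / 2 →
  P d M r * (1 - M * vol d r) ≤ P d (M + 1) r

/-- UNION: `M` separated points among `m` random points. -/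
def S_UNION : Prop := ∀ (d m M : ℕ) (r : ℝ), 1 ≤ d → 0 < r →
  (volume {x : Fin m → Fin d → ℝ | (∀ i k, 0 ≤ x i k ∧ x i k < 1) ∧
    ∃ J : Finset (Fin m), J.card = M ∧ ∀ i ∈ J, ∀ j ∈ J, i ≠ j → r ^ 2 ≤ tsq (x i) (x j)}).toReal
    ≤ (m.choose M : ℝ) * P d M r

/-- RSLOW: among `m ≥ m'` random points there are usually `m' / 2` separated ones. -/
def S_RSLOW : Prop := ∀ (d m m' : ℕ) (r : ℝ), 1 ≤ d → 0 < r → r ≤ 1 / 2 → m' ≤ m →
  (volume {x : Fin m → Fin d → ℝ | (∀ i k, 0 ≤ x i k ∧ x i k < 1) ∧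
    ∀ J : Finset (Fin m), m' ≤ 2 * J.card → ∃ i ∈ J, ∃ j ∈ J, i ≠ j ∧ tsq (x i) (x j) < r ^ 2}).toReal
    ≤ 2 * m' * vol d r

end Pool.Agent.W306.SP
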