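import Pool.Agent.W306.SP.KW

/-!
# Upper bound for the probability of a packing
-/

set_option autoImplicit false

namespace Pool.Agent.W306.SP

open Finset Filter Topology MeasureTheory

lemma tn_neg (u : ℝ) : |(-u) - round (-u)| = |u - round u| := by
  rw [← UnitAddCircle.norm_eq, ← UnitAddCircle.norm_eq, AddCircle.coe_neg, norm_neg]

lemma tsq_comm {d : ℕ} (x y : Fin d → ℝ) : tsq x y = tsq y x := by
  unfold tsq
  refine Finset.sum_congr rfl fun k _ => ?_
  rw [← tn_neg (x k - y k), neg_sub]

lemma adj_symm {d K : ℕ} {r : ℝ} (c c' : Fin d → Fin K) (h : adj r c c') : adj r c' c := by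
  unfold adj at h ⊢
  rw [tsq_comm]
  exact h

lemma vol_scale (d : ℕ) {r : ℝ} (hr : 0 < r) : vol d r = r ^ d * vol d 1 := by
  unfold vol
  rw [Measure.addHaar_ball_of_pos _ _ hr, ENNReal.toReal_mul, ENNReal.toReal_ofReal (by positivity)]
  simp

lemma vol_pos (d : ℕ) {r : ℝ} (hr : 0 < r) : 0 < vol d r := by
  unfold vol
  apply ENNReal.toReal_pos
  · exact (Metric.measure_ball_pos _ _ hr).ne'
  · exact measure_ball_lt_top.ne

/-- final finite bound -/
theorem fin_bound (hpos : S_POS) (hmag : S_MAG) (hft1 : S_FT1) (hft2 : S_FT2) (hmass : S_MASS)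
    (htor : S_TOR) (hdisc : S_DISC) {d m : ℕ} {p r : ℝ} (hd : 2 ≤ d) (hp0 : 0 ≤ p) (hp1 : p ≤ 1 / 2)
    (hpm : 2 * p + ((d : ℝ) - 1) = 2 * m) (hr0 : 0 < r) (hr1 : r ≤ 1 / 2)
    {α : ℝ} (hα0 : 0 < α) (hα : 2 * kap m ≤ α) {q M : ℕ} (hM : 1 ≤ M)
    (hq1 : 1 ≤ q) (hqM : α * q ≤ M) (hq : Real.log (1 / α) ≤ vol d r / (16 * d) * q) :
    P d M r ≤ M.factorial * ((Real.exp 1 * M / (α * q)) ^ q * Real.exp (M + 1) * (α / M) ^ M) := by
  classical
  have hdR : (2 : ℝ) ≤ d := by exact_mod_cast hd
  have hd0 : (0 : ℝ) < d := by linarith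
  have hMR : (0 : ℝ) < M := by exact_mod_cast hM
  have hvol := vol_pos d hr0
  -- choice of K
  have e1 : ∀ᶠ K : ℕ in atTop, 4 * √d / K < r := by
    have : Tendsto (fun K : ℕ => 4 * √d / (K : ℝ)) atTop (𝓝 0) := tendsto_const_div_atTop_nhds_zero_nat _
    exact this.eventually (eventually_lt_nhds hr0)
  have e2 : ∀ᶠ K : ℕ in atTop, vol d r / 2 ≤ vol d (r - 4 * √d / K) := by
    have h1 : Tendsto (fun K : ℕ => 4 * √d / (K : ℝ)) atTop (𝓝 0) := tendsto_const_div_atTop_nhds_zero_nat _
    have h2 : Tendsto (fun K : ℕ => (r - 4 * √d / (K : ℝ)) ^ d * vol d 1) atTop (𝓝 ((r - 0) ^ d * vol d 1)) :=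
      ((tendsto_const_nhds.sub h1).pow d).mul_const _
    rw [sub_zero, ← vol_scale d hr0] at h2
    have h3 := h2.eventually (eventually_gt_nhds (show vol d r / 2 < vol d r by linarith))
    filter_upwards [h3, e1] with K h4 h5
    exact h4.le.trans (le_of_eq (vol_scale d (show 0 < r - 4 * √d / K by linarith)).symm)
  have e3 : ∀ᶠ K : ℕ in atTop, 16 * d / vol d r / α ≤ (K : ℝ) :=
    tendsto_natCast_atTop_atTop.eventually_ge_atTop _
  have e4 : ∀ᶠ K : ℕ in atTop, (M : ℝ) / α ≤ (K : ℝ) :=
    tendsto_natCast_atTop_atTop.eventually_ge_atTop _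
  obtain ⟨K, k1, k2, k3, k4, k5⟩ := (e1.and (e2.and (e3.and (e4.and (eventually_ge_atTop 1))))).exists
  have hKR : (1 : ℝ) ≤ K := by exact_mod_cast k5
  have hKd : (K : ℝ) ≤ (K : ℝ) ^ d := by
    calc (K : ℝ) = (K : ℝ) ^ 1 := (pow_one _).symm
      _ ≤ (K : ℝ) ^ d := pow_le_pow_right₀ hKR (by omega)
  have hKd0 : (0 : ℝ) < (K : ℝ) ^ d := by positivity
  obtain ⟨c0, h1, h2, h3⟩ := cell_bound hpos hmag hft1 hft2 hmass htor hd hp0 hp1 hpm k5 k1 hr1
  have hcardX : (Fintype.card (Fin d → Fin K) : ℝ) = (K : ℝ) ^ d := by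
    rw [Fintype.card_fun, Fintype.card_fin, Fintype.card_fin]
    push_cast
    rfl
  set β : ℝ := vol d r / (16 * d) with hβ
  have hβ0 : 0 < β := by positivity
  have hβc : 4 * β ≤ c0 := by
    refine le_trans ?_ h1
    rw [hβ, le_div_iff₀ (by positivity)]
    calc 4 * (vol d r / (16 * d)) * (2 * d) = vol d r / 2 := by field_simp; ring
      _ ≤ _ := k2
  have hk0 : 0 ≤ kap m := by unfold kap; positivity
  have hcount := kw_count (X := Fin d → Fin K) (fun c c' => adj r c c') (fun c c' h => adj_symm c c' h)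
    hα0 hβ0 (by linarith) hM hq1 hqM hq (by rw [hcardX]; exact k4.trans hKd) (fun A hA => by
      rw [hcardX] at hA
      have hA1 : α * (K : ℝ) ≤ A.card := (mul_le_mul_of_nonneg_left hKd hα0.le).trans hA
      have hA2 : 16 * d / vol d r ≤ A.card := by
        refine le_trans ?_ hA1
        rw [div_le_iff₀ hα0] at k3
        linarith
      have hA0 : (0 : ℝ) < A.card := lt_of_lt_of_le (by positivity) hA2
      have h4 := h3 A
      have h5 : c0 * kap m * A.card * (K : ℝ) ^ d ≤ c0 / 2 * (A.card : ℝ) ^ 2 := by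
        have h6 : kap m * (K : ℝ) ^ d ≤ A.card / 2 := by
          have : 2 * kap m * (K : ℝ) ^ d ≤ α * (K : ℝ) ^ d := mul_le_mul_of_nonneg_right hα hKd0.le
          linarith
        have hc0 : 0 < c0 := by linarith
        calc c0 * kap m * A.card * (K : ℝ) ^ d = c0 * A.card * (kap m * (K : ℝ) ^ d) := by ring
          _ ≤ c0 * A.card * (A.card / 2) := mul_le_mul_of_nonneg_left h6 (by positivity)
          _ = _ := by ring
      have h7 : c0 / 2 * (A.card : ℝ) ^ 2 ≤ ∑ c ∈ A, ((A.filter (fun c' => adj r c c')).card : ℝ) := by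
        linarith
      by_contra hcon
      push Not at hcon
      have h8 : ∀ c ∈ A, ((A.filter (fun c' => adj r c c')).card : ℝ) ≤ 1 + β * A.card := by
        intro c hc
        have h9 : (A.filter (fun c' => adj r c c')).card ≤
            1 + (A.filter (fun w => w ≠ c ∧ adj r c w)).card := by
          have : A.filter (fun c' => adj r c c') ⊆ insert c (A.filter (fun w => w ≠ c ∧ adj r c w)) := by
            intro w hw
            rw [Finset.mem_filter] at hw
            rw [Finset.mem_insert, Finset.mem_filter]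
            by_cases hwc : w = c
            · exact Or.inl hwc
            · exact Or.inr ⟨hw.1, hwc, hw.2⟩
          refine (Finset.card_le_card this).trans ((Finset.card_insert_le _ _).trans ?_)
          omega
        have h10 := (hcon c hc).le
        have h11 : ((A.filter (fun c' => adj r c c')).card : ℝ) ≤
            1 + ((A.filter (fun w => w ≠ c ∧ adj r c w)).card : ℝ) := by exact_mod_cast h9
        linarith
      have h12 := Finset.sum_le_sum h8
      rw [Finset.sum_const, nsmul_eq_mul] at h12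
      have h13 : c0 / 2 * (A.card : ℝ) ^ 2 ≤ A.card * (1 + β * A.card) := h7.trans h12
      have h14 : c0 / 2 * (A.card : ℝ) ≤ 1 + β * A.card := by
        have : A.card * (c0 / 2 * (A.card : ℝ)) ≤ A.card * (1 + β * A.card) := by
          calc A.card * (c0 / 2 * (A.card : ℝ)) = c0 / 2 * (A.card : ℝ) ^ 2 := by ring
            _ ≤ _ := h13
        exact le_of_mul_le_mul_left this hA0
      have h15 : β * A.card ≤ 1 := by nlinarith
      -- strictness: A has a vertex with strictly smaller degree
      have hne : A.Nonempty := by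
        rw [← Finset.card_pos]
        exact_mod_cast hA0
      obtain ⟨c, hc⟩ := hne
      have h16 : 1 ≤ β * A.card := by
        rw [hβ]
        rw [div_le_iff₀ hvol] at hA2
        rw [div_mul_eq_mul_div, le_div_iff₀ (by positivity)]
        linarith
      have h17 : ∑ c ∈ A, ((A.filter (fun c' => adj r c c')).card : ℝ) < ∑ _c ∈ A, (1 + β * A.card) := by
        refine Finset.sum_lt_sum_of_nonempty ⟨c, hc⟩ ?_
        intro c hc
        have h9 : (A.filter (fun c' => adj r c c')).card ≤
            1 + (A.filter (fun w => w ≠ c ∧ adj r c w)).card := by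
          have : A.filter (fun c' => adj r c c') ⊆ insert c (A.filter (fun w => w ≠ c ∧ adj r c w)) := by
            intro w hw
            rw [Finset.mem_filter] at hw
            rw [Finset.mem_insert, Finset.mem_filter]
            by_cases hwc : w = c
            · exact Or.inl hwc
            · exact Or.inr ⟨hw.1, hwc, hw.2⟩
          refine (Finset.card_le_card this).trans ((Finset.card_insert_le _ _).trans ?_)
          omega
        have h10 := hcon c hc
        have h11 : ((A.filter (fun c' => adj r c c')).card : ℝ) ≤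
            1 + ((A.filter (fun w => w ≠ c ∧ adj r c w)).card : ℝ) := by exact_mod_cast h9
        linarith
      rw [Finset.sum_const, nsmul_eq_mul] at h17
      have h18 : c0 / 2 * (A.card : ℝ) ^ 2 < A.card * (1 + β * A.card) := lt_of_le_of_lt h7 h17
      have h19 : c0 / 2 * (A.card : ℝ) < 1 + β * A.card := by
        have : A.card * (c0 / 2 * (A.card : ℝ)) < A.card * (1 + β * A.card) := by
          calc A.card * (c0 / 2 * (A.card : ℝ)) = c0 / 2 * (A.card : ℝ) ^ 2 := by ring
            _ < _ := h18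
        exact lt_of_mul_lt_mul_left this hA0.le
      nlinarith)
  rw [hcardX] at hcount
  have hdi := hdisc d M K r (by omega) k5 hr0 k1
  have hind : (((indep d K M r).card : ℕ) : ℝ) ≤
      (Real.exp 1 * M / (α * q)) ^ q * Real.exp (M + 1) * (α * (K : ℝ) ^ d / M) ^ M := by
    refine le_trans (le_of_eq ?_) hcount
    congr 2
  refine hdi.trans ?_
  have hKM : (0 : ℝ) < ((K : ℝ) ^ d) ^ M := by positivity
  rw [div_le_iff₀ hKM]
  calc (M.factorial : ℝ) * ((indep d K M r).card : ℝ)
      ≤ M.factorial * ((Real.exp 1 * M / (α * q)) ^ q * Real.exp (M + 1) * (α * (K : ℝ) ^ d / M) ^ M) :=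
        mul_le_mul_of_nonneg_left hind (by positivity)
    _ = _ := by
        have : (α * (K : ℝ) ^ d / M) ^ M = (α / M) ^ M * ((K : ℝ) ^ d) ^ M := by
          rw [← mul_pow]
          congr 1
          ring
        rw [this]
        ring

end Pool.Agent.W306.SP
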