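import Pool.Agent.W306.SP.Cell
import Pool.Agent.W306.GV.Count

/-!
# Counting independent sets of cells
-/

set_option autoImplicit false

namespace Pool.Agent.W306.SP

open Finset

/-- truncated exponential series -/
lemma trunc_exp {lam : ℝ} {q : ℕ} (hq : 1 ≤ q) (hl : (q : ℝ) ≤ lam) :
    ∑ k ∈ range (q + 1), lam ^ k / (k.factorial : ℝ) ≤ (Real.exp 1 * lam / q) ^ q := by
  have hqR : (0 : ℝ) < q := by exact_mod_cast hq
  have h1 : 1 ≤ lam / q := by rw [le_div_iff₀ hqR]; linarith
  have h2 : ∀ k ∈ range (q + 1), lam ^ k / (k.factorial : ℝ) ≤ (lam / q) ^ q * ((q : ℝ) ^ k / k.factorial) := by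
    intro k hk
    have hk' : k ≤ q := by
      have := Finset.mem_range.1 hk
      omega
    have e : lam ^ k = (lam / q) ^ k * (q : ℝ) ^ k := by
      rw [← mul_pow, div_mul_cancel₀ _ hqR.ne']
    rw [e, mul_div_assoc]
    exact mul_le_mul_of_nonneg_right (pow_le_pow_right₀ h1 hk') (by positivity)
  refine (Finset.sum_le_sum h2).trans ?_
  rw [← Finset.mul_sum]
  have h3 : ∑ k ∈ range (q + 1), (q : ℝ) ^ k / (k.factorial : ℝ) ≤ Real.exp q :=
    Real.sum_le_exp_of_nonneg (Nat.cast_nonneg _) _
  calc (lam / q) ^ q * ∑ k ∈ range (q + 1), (q : ℝ) ^ k / (k.factorial : ℝ)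
      ≤ (lam / q) ^ q * Real.exp q := mul_le_mul_of_nonneg_left h3 (by positivity)
    _ = (Real.exp 1 * lam / q) ^ q := by
        have : Real.exp q = Real.exp 1 ^ q := by rw [← Real.exp_nat_mul, mul_one]
        rw [this, ← mul_pow]
        congr 1
        ring

/-- general container count on a finite set with supersaturation -/
theorem kw_count {X : Type} [Fintype X] [DecidableEq X] (rel : X → X → Prop) [DecidableRel rel]
    (hsymm : ∀ x y, rel x y → rel y x)
    {α β : ℝ} (hα0 : 0 < α) (hβ0 : 0 < β) (hβ1 : β ≤ 1) {q M : ℕ} (hM : 1 ≤ M)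
    (hq1 : 1 ≤ q) (hqM : α * q ≤ M) (hq : Real.log (1 / α) ≤ β * q)
    (hN : (M : ℝ) / α ≤ Fintype.card X)
    (hdeg : ∀ A : Finset X, α * Fintype.card X ≤ A.card →
      ∃ v ∈ A, β * A.card ≤ ((A.filter (fun w => w ≠ v ∧ rel v w)).card : ℝ)) :
    ((((powersetCard M (univ : Finset X)).filter (fun J => ∀ x ∈ J, ∀ y ∈ J, x ≠ y → ¬ rel x y)).card : ℝ)) ≤
      (Real.exp 1 * M / (α * q)) ^ q * Real.exp (M + 1) * (α * Fintype.card X / M) ^ M := by
  have hMR : (0 : ℝ) < M := by exact_mod_cast hM
  have hqR : (0 : ℝ) < q := by exact_mod_cast hq1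
  set N : ℝ := (Fintype.card X : ℝ) with hNdef
  have hNpos : 0 < N := lt_of_lt_of_le (by positivity) hN
  set lam : ℝ := M / α with hlam
  have hlam0 : 0 < lam := by positivity
  set s0 : ℕ := ⌈α * N⌉₊ with hs0
  have hs1 : α * N ≤ s0 := Nat.le_ceil _
  have hs2 : (s0 : ℝ) ≤ α * N + 1 := (Nat.ceil_lt_add_one (by positivity)).le
  set l : ℝ := lam / N with hl
  have hl0 : 0 < l := by positivity
  have hcontr : ((univ : Finset X).card : ℝ) * (1 - β) ^ q ≤ s0 := by
    rw [Finset.card_univ]
    have h1 : (1 - β) ^ q ≤ α := by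
      calc (1 - β) ^ q ≤ (Real.exp (-β)) ^ q :=
            pow_le_pow_left₀ (by linarith) (by linarith [Real.add_one_le_exp (-β)]) _
        _ = Real.exp (q * (-β)) := by rw [← Real.exp_nat_mul]
        _ ≤ Real.exp (Real.log α) := by
            apply Real.exp_le_exp.2
            rw [one_div, Real.log_inv] at hq
            linarith
        _ = α := Real.exp_log hα0
    calc N * (1 - β) ^ q ≤ N * α := mul_le_mul_of_nonneg_left h1 hNpos.le
      _ = α * N := mul_comm _ _
      _ ≤ s0 := hs1
  have hkw := H972R5.AZ.taskKW X rel s0 β l hsymm hl0.le hβ0 hβ1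
    (fun A hA => by
      apply hdeg
      have : (s0 : ℝ) ≤ A.card := by exact_mod_cast hA.le
      linarith) q univ hcontr
  set F := (powersetCard M (univ : Finset X)).filter (fun J => ∀ x ∈ J, ∀ y ∈ J, x ≠ y → ¬ rel x y) with hF
  have hleft : (F.card : ℝ) * l ^ M ≤
      ∑ I ∈ (univ : Finset X).powerset.filter (fun I => ∀ x ∈ I, ∀ y ∈ I, x ≠ y → ¬ rel x y), l ^ I.card := by
    rw [← nsmul_eq_mul, ← Finset.sum_const]
    calc ∑ _x ∈ F, l ^ M = ∑ C ∈ F, l ^ C.card := by
          refine Finset.sum_congr rfl fun C hC => ?_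
          rw [hF, Finset.mem_filter, Finset.mem_powersetCard] at hC
          rw [hC.1.2]
      _ ≤ _ := by
          refine Finset.sum_le_sum_of_subset_of_nonneg ?_ (fun _ _ _ => pow_nonneg hl0.le _)
          intro C hC
          rw [hF, Finset.mem_filter, Finset.mem_powersetCard] at hC
          rw [Finset.mem_filter, Finset.mem_powerset]
          exact ⟨Finset.subset_univ _, hC.2⟩
  have hsum : ∑ k ∈ range (q + 1), (((univ : Finset X).card.choose k : ℕ) : ℝ) * l ^ k
      ≤ (Real.exp 1 * lam / q) ^ q := by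
    refine le_trans ?_ (trunc_exp hq1 (by rw [hlam, le_div_iff₀ hα0]; linarith))
    refine Finset.sum_le_sum fun k _ => ?_
    rw [Finset.card_univ]
    have h1 : ((Fintype.card X).choose k : ℝ) ≤ N ^ k / k.factorial := Nat.choose_le_pow_div k _
    calc ((Fintype.card X).choose k : ℝ) * l ^ k ≤ N ^ k / k.factorial * l ^ k :=
          mul_le_mul_of_nonneg_right h1 (by positivity)
      _ = lam ^ k / k.factorial := by
          rw [hl, div_pow]
          field_simp
  have hexp : (1 + l) ^ s0 ≤ Real.exp (M + 1) := by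
    calc (1 + l) ^ s0 ≤ (Real.exp l) ^ s0 :=
          pow_le_pow_left₀ (by linarith) (by linarith [Real.add_one_le_exp l]) _
      _ = Real.exp (s0 * l) := by rw [← Real.exp_nat_mul]
      _ ≤ Real.exp (M + 1) := by
          apply Real.exp_le_exp.2
          calc (s0 : ℝ) * l ≤ (α * N + 1) * l := mul_le_mul_of_nonneg_right hs2 hl0.le
            _ = M + lam / N := by
                rw [hl, hlam]
                field_simp
            _ ≤ M + 1 := by
                have : lam / N ≤ 1 := by rw [div_le_one hNpos]; exact hN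
                linarith
  have hall : (F.card : ℝ) * l ^ M ≤ (Real.exp 1 * lam / q) ^ q * Real.exp (M + 1) :=
    hleft.trans (hkw.trans (mul_le_mul hsum hexp (by positivity) (by positivity)))
  have hlM : 0 < l ^ M := pow_pos hl0 _
  have e1 : Real.exp 1 * M / (α * q) = Real.exp 1 * lam / q := by
    rw [hlam]
    field_simp
  have e2 : (α * N / M) ^ M = 1 / l ^ M := by
    rw [hl, hlam, ← one_div_pow]
    congr 1
    field_simp
  rw [e1, e2, mul_one_div, le_div_iff₀ hlM]
  exact hall

end Pool.Agent.W306.SP
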